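import Pool.Agent.helper70.M8.Defs
import Pool.Agent.helper70.M8.C1

set_option autoImplicit false

/-!
# OCT2-W: weighted conditions

Module for `MP_b7f146_ag`.
-/

open MvPolynomial Set Filter Topology

namespace Oct

namespace W

theorem up_of_mul {g w v G : ℝ → ℝ} {a b : ℝ} (hw : ∀ u ∈ Icc a b, 0 < w u)
    (hv : ∀ u ∈ Icc a b, 0 < v u) (hG : ∀ u ∈ Icc a b, 0 < G u)
    (hd : ∀ u ∈ Icc a b, HasDerivAt (fun u => w u * g u) (v u * G u) u) : Up g (Icc a b) := by
  have hm : StrictMonoOn (fun u => w u * g u) (Icc a b) := by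
    refine strictMonoOn_of_deriv_pos (convex_Icc a b)
      (fun u hu => (hd u hu).continuousAt.continuousWithinAt) fun u hu => ?_
    have hu' := interior_subset hu
    rw [(hd u hu').deriv]
    exact mul_pos (hv u hu') (hG u hu')
  intro x hx y hy hxy h0
  have h1 : w x * g x < w y * g y := hm hx hy hxy
  have h2 : 0 ≤ w x * g x := mul_nonneg (hw x hx).le h0
  exact (mul_pos_iff_of_pos_left (hw y hy)).mp (h2.trans_lt h1)

theorem valley_of_mul {g w v ψ : ℝ → ℝ} {a b : ℝ} (hw : ∀ u ∈ Icc a b, 0 < w u)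
    (hv : ∀ u ∈ Icc a b, 0 < v u) (hψ : StrictMonoOn ψ (Icc a b))
    (hd : ∀ u ∈ Icc a b, HasDerivAt (fun u => w u * g u) (v u * ψ u) u) :
    Valley g (Icc a b) := by
  intro x hx y hy z hz hxy hyz hgx hgz
  by_contra hgy
  have hgy' : 0 ≤ g y := not_lt.mp hgy
  have hsub1 : Icc x y ⊆ Icc a b := Icc_subset_Icc hx.1 hy.2
  have hsub2 : Icc y z ⊆ Icc a b := Icc_subset_Icc hy.1 hz.2
  obtain ⟨c, hc, hc'⟩ := exists_hasDerivAt_eq_slope (fun u => w u * g u) (fun u => v u * ψ u) hxy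
    (fun u hu => (hd u (hsub1 hu)).continuousAt.continuousWithinAt)
    (fun u hu => hd u (hsub1 (Ioo_subset_Icc_self hu)))
  obtain ⟨d, hd1, hd'⟩ := exists_hasDerivAt_eq_slope (fun u => w u * g u) (fun u => v u * ψ u) hyz
    (fun u hu => (hd u (hsub2 hu)).continuousAt.continuousWithinAt)
    (fun u hu => hd u (hsub2 (Ioo_subset_Icc_self hu)))
  have hcI := hsub1 (Ioo_subset_Icc_self hc)
  have hdI := hsub2 (Ioo_subset_Icc_self hd1)
  have hφx : w x * g x ≤ 0 := mul_nonpos_of_nonneg_of_nonpos (hw x hx).le hgx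
  have hφz : w z * g z ≤ 0 := mul_nonpos_of_nonneg_of_nonpos (hw z hz).le hgz
  have hφy : 0 ≤ w y * g y := mul_nonneg (hw y hy).le hgy'
  have h1 : 0 ≤ v c * ψ c := by
    rw [hc']
    exact div_nonneg (by linarith) (by linarith)
  have h2 : v d * ψ d ≤ 0 := by
    rw [hd']
    exact div_nonpos_of_nonpos_of_nonneg (by linarith) (by linarith)
  have h3 : 0 ≤ ψ c := nonneg_of_mul_nonneg_right h1 (hv c hcI)
  have h4 : ψ d ≤ 0 := nonpos_of_mul_nonpos_right h2 (hv d hdI)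
  have h5 := hψ hcI hdI (hc.2.trans hd1.1)
  linarith

theorem deriv_weight {g : ℝ → ℝ} {g' u o τ : ℝ} (k : ℕ) (hr : 0 < τ * (u - o))
    (hg : HasDerivAt g g' u) :
    HasDerivAt (fun u => (τ * (u - o)) ^ (-(k : ℝ) / 2) * g u)
      ((τ * (u - o)) ^ (-(k : ℝ) / 2 - 1) / 2 * (τ * (2 * (u - o) * g' - k * g u))) u := by
  have h1 : HasDerivAt (fun u => τ * (u - o)) τ u := by
    simpa using ((hasDerivAt_id u).sub_const o).const_mul τ
  have h2 := (h1.rpow_const (p := -(k : ℝ) / 2) (Or.inl hr.ne')).mul hg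
  refine h2.congr_deriv ?_
  have h3 : (τ * (u - o)) ^ (-(k : ℝ) / 2) = (τ * (u - o)) ^ (-(k : ℝ) / 2 - 1) * (τ * (u - o)) := by
    rw [Real.rpow_sub_one hr.ne', div_mul_cancel₀ _ hr.ne']
  rw [h3]
  ring

theorem eval_wD (o : ℤ) (k : ℕ) (P : MvPolynomial (Fin 2) ℝ) (t u : ℝ) :
    eval ![t, u] (wD o k P) = 2 * (u - o) * eval ![t, u] (pderiv 1 P) - k * eval ![t, u] P := by
  simp [wD]

/-- the derivative of the weighted function -/
theorem deriv_pol (P : MvPolynomial (Fin 2) ℝ) (o : ℤ) (k : ℕ) (σ : Bool) (t u τ : ℝ)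
    (hr : 0 < τ * (u - o)) :
    HasDerivAt (fun u => (τ * (u - o)) ^ (-(k : ℝ) / 2) * (sg σ * eval ![t, u] P))
      ((τ * (u - o)) ^ (-(k : ℝ) / 2 - 1) / 2 * (τ * (sg σ * eval ![t, u] (wD o k P)))) u := by
  have h1 := (hasDerivAt_snd P t u).const_mul (sg σ)
  refine (deriv_weight k hr h1).congr_deriv ?_
  rw [eval_wD]
  ring

end W

theorem up_of_upC {P : MvPolynomial (Fin 2) ℝ} {o : ℤ} {k : ℕ} {σ : Bool} {a b lo hi : ℝ}
    (h : UpC P o k σ a b lo hi) {t : ℝ} (ht : t ∈ Icc a b) :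
    Up (fun u => sg σ * eval ![t, u] P) (Icc lo hi) := by
  rcases h with ⟨-, h⟩ | ⟨-, ho, h⟩ | ⟨-, ho, h⟩
  · refine W.up_of_mul (w := fun _ => 1) (v := fun _ => 1)
      (G := fun u => sg σ * eval ![t, u] (pderiv 1 P)) (fun _ _ => one_pos) (fun _ _ => one_pos)
      (fun u hu => ?_) (fun u _ => ?_)
    · have h1 := h t ht u hu
      rwa [eval_mul, eval_C] at h1
    · have h1 := (hasDerivAt_snd P t u).const_mul (sg σ)
      simpa using h1
  · have hr : ∀ u ∈ Icc lo hi, 0 < (1 : ℝ) * (u - o) := fun u hu => by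
      have := hu.1
      linarith
    refine W.up_of_mul (w := fun u => ((1 : ℝ) * (u - o)) ^ (-(k : ℝ) / 2))
      (v := fun u => ((1 : ℝ) * (u - o)) ^ (-(k : ℝ) / 2 - 1) / 2)
      (G := fun u => 1 * (sg σ * eval ![t, u] (wD o k P)))
      (fun u hu => Real.rpow_pos_of_pos (hr u hu) _)
      (fun u hu => half_pos (Real.rpow_pos_of_pos (hr u hu) _)) (fun u hu => ?_)
      (fun u hu => W.deriv_pol P o k σ t u 1 (hr u hu))
    have h1 := h t ht u hu
    rw [eval_mul, eval_C] at h1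
    linarith
  · have hr : ∀ u ∈ Icc lo hi, 0 < (-1 : ℝ) * (u - o) := fun u hu => by
      have := hu.2
      linarith
    refine W.up_of_mul (w := fun u => ((-1 : ℝ) * (u - o)) ^ (-(k : ℝ) / 2))
      (v := fun u => ((-1 : ℝ) * (u - o)) ^ (-(k : ℝ) / 2 - 1) / 2)
      (G := fun u => -1 * (sg σ * eval ![t, u] (wD o k P)))
      (fun u hu => Real.rpow_pos_of_pos (hr u hu) _)
      (fun u hu => half_pos (Real.rpow_pos_of_pos (hr u hu) _)) (fun u hu => ?_)
      (fun u hu => W.deriv_pol P o k σ t u (-1) (hr u hu))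
    have h1 := h t ht u hu
    rw [eval_mul, eval_C] at h1
    linarith

theorem valley_of_cvC {P : MvPolynomial (Fin 2) ℝ} {o : ℤ} {k k' : ℕ} {σ : Bool} {t lo hi : ℝ}
    (h : CvC P o k k' σ t lo hi) :
    Valley (fun u => sg σ * eval ![t, u] P) (Icc lo hi) := by
  have ht : t ∈ Icc t t := ⟨le_rfl, le_rfl⟩
  -- the weighted case, for both signs
  have key : ∀ τ : ℝ, τ * τ = 1 → (∀ u ∈ Icc lo hi, 0 < τ * (u - o)) →
      PosOn (C (sg σ) * wD o k' (wD o k P)) t t lo hi →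
      Valley (fun u => sg σ * eval ![t, u] P) (Icc lo hi) := by
    intro τ hτ hr h
    have hψ : StrictMonoOn (fun u => τ * ((τ * (u - o)) ^ (-(k' : ℝ) / 2) *
        (sg σ * eval ![t, u] (wD o k P)))) (Icc lo hi) := by
      have hd : ∀ u ∈ Icc lo hi, HasDerivAt (fun u => τ * ((τ * (u - o)) ^ (-(k' : ℝ) / 2) *
          (sg σ * eval ![t, u] (wD o k P))))
          (τ * ((τ * (u - o)) ^ (-(k' : ℝ) / 2 - 1) / 2 *
            (τ * (sg σ * eval ![t, u] (wD o k' (wD o k P)))))) u := fun u hu =>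
        (W.deriv_pol (wD o k P) o k' σ t u τ (hr u hu)).const_mul τ
      refine strictMonoOn_of_deriv_pos (convex_Icc lo hi)
        (fun u hu => (hd u hu).continuousAt.continuousWithinAt) fun u hu => ?_
      have hu' := interior_subset hu
      rw [(hd u hu').deriv]
      have h1 := h t ht u hu'
      rw [eval_mul, eval_C] at h1
      have h2 : 0 < (τ * (u - o)) ^ (-(k' : ℝ) / 2 - 1) / 2 :=
        half_pos (Real.rpow_pos_of_pos (hr u hu') _)
      have h3 : τ * ((τ * (u - o)) ^ (-(k' : ℝ) / 2 - 1) / 2 *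
            (τ * (sg σ * eval ![t, u] (wD o k' (wD o k P))))) =
          (τ * τ) * ((τ * (u - o)) ^ (-(k' : ℝ) / 2 - 1) / 2 *
            (sg σ * eval ![t, u] (wD o k' (wD o k P)))) := by ring
      rw [h3, hτ, one_mul]
      exact mul_pos h2 h1
    refine W.valley_of_mul (w := fun u => (τ * (u - o)) ^ (-(k : ℝ) / 2))
      (v := fun u => (τ * (u - o)) ^ (-(k : ℝ) / 2 - 1) / 2 / (τ * (u - o)) ^ (-(k' : ℝ) / 2))
      (ψ := fun u => τ * ((τ * (u - o)) ^ (-(k' : ℝ) / 2) * (sg σ * eval ![t, u] (wD o k P))))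
      (fun u hu => Real.rpow_pos_of_pos (hr u hu) _)
      (fun u hu => div_pos (half_pos (Real.rpow_pos_of_pos (hr u hu) _))
        (Real.rpow_pos_of_pos (hr u hu) _)) hψ (fun u hu => ?_)
    refine (W.deriv_pol P o k σ t u τ (hr u hu)).congr_deriv ?_
    have h4 : (τ * (u - o)) ^ (-(k' : ℝ) / 2) ≠ 0 := (Real.rpow_pos_of_pos (hr u hu) _).ne'
    generalize (τ * (u - o)) ^ (-(k' : ℝ) / 2) = Y at h4 ⊢
    generalize (τ * (u - o)) ^ (-(k : ℝ) / 2 - 1) = Z
    field_simp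
  rcases h with ⟨-, h⟩ | ⟨-, ho | ho, h⟩
  · have hψ : StrictMonoOn (fun u => sg σ * eval ![t, u] (pderiv 1 P)) (Icc lo hi) := by
      refine strictMonoOn_of_deriv_pos (convex_Icc lo hi)
        (fun u _ => ((hasDerivAt_snd (pderiv 1 P) t u).const_mul
          (sg σ)).continuousAt.continuousWithinAt) fun u hu => ?_
      rw [((hasDerivAt_snd (pderiv 1 P) t u).const_mul (sg σ)).deriv]
      have h1 := h t ht u (interior_subset hu)
      rwa [eval_mul, eval_C] at h1
    refine W.valley_of_mul (w := fun _ => 1) (v := fun _ => 1)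
      (ψ := fun u => sg σ * eval ![t, u] (pderiv 1 P)) (fun _ _ => one_pos) (fun _ _ => one_pos)
      hψ (fun u _ => ?_)
    have h1 := (hasDerivAt_snd P t u).const_mul (sg σ)
    simpa using h1
  · exact key 1 (by norm_num) (fun u hu => by have := hu.1; linarith) h
  · exact key (-1) (by norm_num) (fun u hu => by have := hu.2; linarith) h

end Oct
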